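import Mathlib
import Pool.Agent.Lib.helper29.MaxVar2

set_option autoImplicit false

namespace Pool.Agent.Results.MP_0067de_an.NoBound

open MeasureTheory Pool.Agent.Lib.H29.MaxVar

/-- There is a smooth, even, bounded kernel whose maximal operator admits no variation bound. -/
theorem result : ∃ φ : ℝ → ℝ, (∀ x, 0 ≤ φ x) ∧ Integrable φ ∧ ∫ x, φ x = 1 ∧
    ContDiff ℝ (⊤ : ℕ∞) φ ∧ (∀ x, φ (-x) = φ x) ∧ (∀ x, φ x ≤ 1) ∧
    ∀ C : NNReal, ∃ f : ℝ → ℝ, BoundedVariationOn f Set.univ ∧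
      (C : ENNReal) * eVariationOn f Set.univ < eVariationOn (maxOp φ f) Set.univ :=
  ⟨phi, phi_nonneg, phi_int, phi_integral, phi_smooth, phi_neg, phi_le, main⟩

end Pool.Agent.Results.MP_0067de_an.NoBound
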